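import Pool.Agent.W792.WA.Stm
import Pool.Agent.W918.LL.Opr

/-!
# WA-SYMB (helper683 for helper792): symbol calculus for `opr`
-/

set_option autoImplicit false

namespace Pool.Agent.W683.WA

open MeasureTheory UnitAddTorus Pool.Agent.W792.LL Pool.Agent.W792.WA
open Pool.Agent.W918.LL (mulC mulC_coe opT opT_apply opr_eq norm_opT_le)
open scoped ComplexConjugate

noncomputable section

local instance : MeasureSpace UnitAddCircle := ⟨AddCircle.haarAddCircle⟩

local instance : Measure.IsAddHaarMeasure (volume : Measure UnitAddCircle) :=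
  inferInstanceAs (Measure.IsAddHaarMeasure AddCircle.haarAddCircle)

local instance : IsProbabilityMeasure (volume : Measure UnitAddCircle) :=
  inferInstanceAs (IsProbabilityMeasure AddCircle.haarAddCircle)

/-- `L²` of the torus -/
abbrev LT (d : ℕ) := Lp ℂ 2 (volume : Measure (UnitAddTorus (Fin d)))

/-- the Fourier transform -/
def RU (d : ℕ) : LT d ≃ₗᵢ[ℂ] l2 (Fin d → ℤ) := (mFourierBasis (d := Fin d)).repr

variable {d : ℕ}

lemma opr_RU (a : C(UnitAddTorus (Fin d), ℂ)) (f : LT d) :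
    opr a (RU d f) = RU d (mulC a f) := by
  rw [opr_eq, opT_apply]
  unfold RU
  rw [LinearIsometryEquiv.symm_apply_apply]

lemma inner_RU (f g : LT d) : inner ℂ (RU d f) (RU d g) = inner ℂ f g :=
  LinearIsometryEquiv.inner_map_map _ _ _

lemma exists_RU (u : l2 (Fin d → ℤ)) : ∃ f : LT d, u = RU d f :=
  ⟨(RU d).symm u, (LinearIsometryEquiv.apply_symm_apply _ _).symm⟩

/-- adjoints -/
theorem adj (a b : C(UnitAddTorus (Fin d), ℂ)) (u v : l2 (Fin d → ℤ)) :
    inner ℂ (opr a u) (opr b v) = inner ℂ u (opr (star a * b) v) := by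
  obtain ⟨f, rfl⟩ := exists_RU u
  obtain ⟨g, rfl⟩ := exists_RU v
  rw [opr_RU, opr_RU, opr_RU, inner_RU, inner_RU, L2.inner_def, L2.inner_def]
  apply integral_congr_ae
  filter_upwards [mulC_coe a f, mulC_coe b g, mulC_coe (star a * b) g] with t h1 h2 h3
  rw [h1, h2, h3, ContinuousMap.mul_apply, ContinuousMap.star_apply, RCLike.inner_apply,
    RCLike.inner_apply, map_mul, RCLike.star_def]
  ring

/-- the quadratic form -/
theorem form (a : C(UnitAddTorus (Fin d), ℂ)) (f g : LT d) :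
    Integrable (fun t => conj (f t) * a t * g t) (volume : Measure (UnitAddTorus (Fin d))) ∧
    inner ℂ (RU d f) (opr a (RU d g)) = ∫ t, conj (f t) * a t * g t := by
  have e : (fun t => inner ℂ (f t) (mulC a g t)) =ᵐ[volume] fun t => conj (f t) * a t * g t := by
    filter_upwards [mulC_coe a g] with t h1
    rw [h1, RCLike.inner_apply]
    ring
  constructor
  · exact (L2.integrable_inner (𝕜 := ℂ) f (mulC a g)).congr e
  · rw [opr_RU, inner_RU, L2.inner_def]
    exact integral_congr_ae e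

theorem re_form (a : C(UnitAddTorus (Fin d), ℂ)) (f : LT d) :
    Integrable (fun t => (a t).re * ‖f t‖ ^ 2) (volume : Measure (UnitAddTorus (Fin d))) ∧
    (inner ℂ (RU d f) (opr a (RU d f))).re = ∫ t, (a t).re * ‖f t‖ ^ 2 := by
  obtain ⟨h1, h2⟩ := form a f f
  have e : ∀ t, (conj (f t) * a t * f t).re = (a t).re * ‖f t‖ ^ 2 := by
    intro t
    have h3 : conj (f t) * a t * f t = a t * ((‖f t‖ ^ 2 : ℝ) : ℂ) := by
      have h4 := Complex.conj_mul' (f t)
      push_cast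
      rw [← h4]
      ring
    rw [h3, Complex.re_mul_ofReal]
  constructor
  · have := h1.re
    refine this.congr (Filter.Eventually.of_forall fun t => ?_)
    exact e t
  · rw [h2]
    have h5 := integral_re h1
    have h6 : (∫ t, conj (f t) * a t * f t).re =
        ∫ t, (conj (f t) * a t * f t).re := h5.symm
    rw [h6]
    exact integral_congr_ae (Filter.Eventually.of_forall e)

/-- positivity -/
theorem pos (a : C(UnitAddTorus (Fin d), ℂ)) :
    (∀ u : l2 (Fin d → ℤ), 0 ≤ (inner ℂ u (opr a u)).re) ↔ ∀ k, 0 ≤ (a k).re := by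
  constructor
  · intro h
    set φ : C(UnitAddTorus (Fin d), ℂ) :=
      ⟨fun t => ((max (-(a t).re) 0 : ℝ) : ℂ), by fun_prop⟩ with hφ
    have h1 := h (RU d (φ.toLp 2 (volume : Measure (UnitAddTorus (Fin d))) ℂ))
    rw [(re_form a _).2] at h1
    have h2 : ∫ t, (a t).re * ‖(φ.toLp 2 (volume : Measure (UnitAddTorus (Fin d))) ℂ) t‖ ^ 2 =
        -∫ t, (max (-(a t).re) 0) ^ 3 := by
      rw [← integral_neg]
      apply integral_congr_ae
      filter_upwards [φ.coeFn_toLp (p := 2) (𝕜 := ℂ)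
        (volume : Measure (UnitAddTorus (Fin d)))] with t h3
      rw [h3, hφ]
      simp only [ContinuousMap.coe_mk, Complex.norm_real, Real.norm_eq_abs, sq_abs]
      rcases le_total (-(a t).re) 0 with h4 | h4
      · rw [max_eq_right h4]
        ring
      · rw [max_eq_left h4]
        ring
    rw [h2] at h1
    have hc : Continuous fun t : UnitAddTorus (Fin d) => (max (-(a t).re) 0) ^ 3 := by fun_prop
    have h5 : 0 ≤ ∫ t : UnitAddTorus (Fin d), (max (-(a t).re) 0) ^ 3 :=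
      integral_nonneg fun t => by positivity
    have h6 : ∫ t : UnitAddTorus (Fin d), (max (-(a t).re) 0) ^ 3 = 0 := by linarith
    rw [integral_eq_zero_iff_of_nonneg (fun t => by positivity)
      (hc.integrable_of_hasCompactSupport (HasCompactSupport.of_compactSpace _))] at h6
    have h7 := (Continuous.ae_eq_iff_eq (volume : Measure (UnitAddTorus (Fin d))) hc
      continuous_zero).1 h6
    intro k
    have h8 := congrFun h7 k
    by_contra h9
    push Not at h9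
    have h10 : (0 : ℝ) < (max (-(a k).re) 0) ^ 3 := by
      have : 0 < max (-(a k).re) 0 := lt_max_of_lt_left (by linarith)
      positivity
    rw [h8] at h10
    exact lt_irrefl _ h10
  · intro h u
    obtain ⟨f, rfl⟩ := exists_RU u
    rw [(re_form a f).2]
    exact integral_nonneg fun t => mul_nonneg (h t) (by positivity)

lemma opr_add' (a b : C(UnitAddTorus (Fin d), ℂ)) : opr (a + b) = opr a + opr b :=
  ((Pool.Agent.W918.LL.main d a b).2.2.2.1)

lemma opr_smul' (c : ℂ) (a : C(UnitAddTorus (Fin d), ℂ)) : opr (c • a) = c • opr a :=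
  ((Pool.Agent.W918.LL.main d a a).2.2.2.2.1 c)

lemma opr_one' : opr (1 : C(UnitAddTorus (Fin d), ℂ)) = 1 :=
  ((Pool.Agent.W918.LL.main d 0 0).2.2.2.2.2.1)

/-- the norm -/
theorem nrm (a : C(UnitAddTorus (Fin d), ℂ)) : ‖opr a‖ = ‖a‖ := by
  refine le_antisymm (Pool.Agent.W918.LL.main d a a).2.1 ?_
  refine (ContinuousMap.norm_le _ (norm_nonneg _)).2 fun k => ?_
  set b : C(UnitAddTorus (Fin d), ℂ) :=
    ((‖opr a‖ ^ 2 : ℝ) : ℂ) • 1 + (-1 : ℂ) • (star a * a) with hb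
  have h1 : ∀ u : l2 (Fin d → ℤ), 0 ≤ (inner ℂ u (opr b u)).re := by
    intro u
    rw [hb, opr_add', opr_smul', opr_smul', opr_one', add_apply,
      smul_apply, smul_apply,
      one_apply_eq_self, inner_add_right, inner_smul_right, inner_smul_right,
      ← adj, inner_self_eq_norm_sq_to_K, inner_self_eq_norm_sq_to_K]
    have h2 : ((((‖opr a‖ ^ 2 : ℝ) : ℂ)) * ((‖u‖ : ℂ)) ^ 2 + -1 * ((‖opr a u‖ : ℂ)) ^ 2) =
        ((‖opr a‖ ^ 2 * ‖u‖ ^ 2 - ‖opr a u‖ ^ 2 : ℝ) : ℂ) := by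
      push_cast
      ring
    have h3 : ‖opr a u‖ ≤ ‖opr a‖ * ‖u‖ := (opr a).le_opNorm u
    have h4 : ‖opr a u‖ ^ 2 ≤ ‖opr a‖ ^ 2 * ‖u‖ ^ 2 := by
      rw [← mul_pow]
      exact pow_le_pow_left₀ (norm_nonneg _) h3 2
    have h5 : (0 : ℝ) ≤ (((((‖opr a‖ ^ 2 : ℝ) : ℂ)) * ((‖u‖ : ℂ)) ^ 2 +
        -1 * ((‖opr a u‖ : ℂ)) ^ 2)).re := by
      rw [h2, Complex.ofReal_re]
      linarith
    exact h5
  have h2 := (pos b).1 h1 k
  have h3 : b k = ((‖opr a‖ ^ 2 - ‖a k‖ ^ 2 : ℝ) : ℂ) := by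
    rw [hb, ContinuousMap.add_apply, ContinuousMap.smul_apply, ContinuousMap.smul_apply,
      ContinuousMap.mul_apply, ContinuousMap.star_apply, ContinuousMap.one_apply, RCLike.star_def,
      Complex.conj_mul']
    simp only [smul_eq_mul]
    push_cast
    ring
  rw [h3, Complex.ofReal_re] at h2
  exact (pow_le_pow_iff_left₀ (norm_nonneg _) (norm_nonneg _) (by norm_num : (2 : ℕ) ≠ 0)).1
    (by linarith)

lemma cR_apply (g : C(UnitAddTorus (Fin d), ℝ)) (k : UnitAddTorus (Fin d)) :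
    cR g k = (g k : ℂ) := by
  unfold cR toC
  rw [dif_pos (by fun_prop)]
  rfl

/-- real quadratic inequality -/
lemma disc {a b c : ℝ} (h : ∀ s : ℝ, 0 ≤ a * s ^ 2 - 2 * b * s + c) : b ^ 2 ≤ a * c := by
  have h1 : discrim a (-(2 * b)) c ≤ 0 := by
    refine discrim_le_zero fun x => ?_
    have := h x
    nlinarith
  unfold discrim at h1
  nlinarith

lemma pw {θ A B N : ℝ} (hθ : 0 ≤ θ) (hA : 0 ≤ A) (hB : 0 ≤ B) (hN : 0 ≤ N)
    (h : N ^ 2 ≤ θ * A * B) : 2 * N ≤ √θ * (A + B) := by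
  have h0 := Real.sq_sqrt hθ
  have h1 : (2 * N) ^ 2 ≤ (√θ * (A + B)) ^ 2 := by
    rw [mul_pow √θ, h0]
    nlinarith [mul_nonneg hθ (sq_nonneg (A - B))]
  exact (pow_le_pow_iff_left₀ (by positivity) (by positivity) (by norm_num : (2 : ℕ) ≠ 0)).1 h1

/-- phases -/
lemma phase {z : ℂ} (hz : z ≠ 0) (s : ℝ) :
    conj ((s : ℂ) * (z / ‖z‖)) * z = ((s * ‖z‖ : ℝ) : ℂ) ∧ ‖(s : ℂ) * (z / ‖z‖)‖ ^ 2 = s ^ 2 := by
  have hn : ‖z‖ ≠ 0 := (norm_pos_iff.2 hz).ne'
  have hn' : (‖z‖ : ℂ) ≠ 0 := by exact_mod_cast hn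
  constructor
  · rw [map_mul, map_div₀, Complex.conj_ofReal, Complex.conj_ofReal]
    have := Complex.conj_mul' z
    push_cast
    field_simp
    linear_combination (s : ℂ) * this
  · rw [norm_mul, norm_div, Complex.norm_real, Complex.norm_real, norm_norm, div_self hn, mul_one,
      Real.norm_eq_abs, sq_abs]

/-- Cauchy-Schwarz localisation -/
theorem csl (g : C(UnitAddTorus (Fin d), ℂ)) (g₁ g₂ : C(UnitAddTorus (Fin d), ℝ)) (θ : ℝ)
    (hθ : 0 ≤ θ) (h₁ : ∀ k, 0 ≤ g₁ k) (h₂ : ∀ k, 0 ≤ g₂ k) :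
    ((∀ u₁ u₂ : l2 (Fin d → ℤ), ‖inner ℂ u₁ (opr g u₂)‖ ^ 2
          ≤ θ * (inner ℂ u₁ (opr (cR g₁) u₁)).re * (inner ℂ u₂ (opr (cR g₂) u₂)).re) ↔
        ∀ k, ‖g k‖ ^ 2 ≤ θ * g₁ k * g₂ k) := by
  have hE : ∀ (g : C(UnitAddTorus (Fin d), ℝ)), (∀ k, 0 ≤ g k) → ∀ u : l2 (Fin d → ℤ),
      0 ≤ (inner ℂ u (opr (cR g) u)).re := by
    intro g hg
    rw [pos]
    intro k
    rw [cR_apply, Complex.ofReal_re]
    exact hg k
  have hs := Real.sq_sqrt hθ
  have hs0 := Real.sqrt_nonneg θ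
  constructor
  · intro h k
    by_cases hg : g k = 0
    · rw [hg, norm_zero]
      have := mul_nonneg (mul_nonneg hθ (h₁ k)) (h₂ k)
      simpa using this
    have key : ∀ s : ℝ, 0 ≤ (√θ * g₁ k) * s ^ 2 - 2 * ‖g k‖ * s + √θ * g₂ k := by
      intro s
      obtain ⟨p1, p2⟩ := phase hg s
      set c : ℂ := (s : ℂ) * (g k / ‖g k‖) with hc
      set b : C(UnitAddTorus (Fin d), ℂ) := ((√θ * s ^ 2 : ℝ) : ℂ) • cR g₁ +
        (((√θ : ℝ) : ℂ) • cR g₂ + (-2 * conj c) • g) with hb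
      have h3 : ∀ u : l2 (Fin d → ℤ), 0 ≤ (inner ℂ u (opr b u)).re := by
        intro u
        have h4 := h (c • u) u
        have e1 : inner ℂ (c • u) (opr g u) = conj c * inner ℂ u (opr g u) :=
          inner_smul_left _ _ _
        have e2 : (inner ℂ (c • u) (opr (cR g₁) (c • u))).re =
            s ^ 2 * (inner ℂ u (opr (cR g₁) u)).re := by
          rw [map_smul, inner_smul_left, inner_smul_right, ← mul_assoc, Complex.conj_mul',
            ← Complex.ofReal_pow, p2, Complex.re_ofReal_mul]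
        rw [e1, e2] at h4
        have h5 := pw hθ (mul_nonneg (sq_nonneg s) (hE g₁ h₁ u)) (hE g₂ h₂ u)
          (norm_nonneg _) h4
        have e3 : (inner ℂ u (opr b u)).re = √θ * (s ^ 2 * (inner ℂ u (opr (cR g₁) u)).re +
            (inner ℂ u (opr (cR g₂) u)).re) - 2 * (conj c * inner ℂ u (opr g u)).re := by
          rw [hb, opr_add', opr_add', opr_smul', opr_smul', opr_smul', add_apply,
            add_apply, smul_apply, smul_apply, smul_apply, inner_add_right, inner_add_right,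
            inner_smul_right, inner_smul_right, inner_smul_right, Complex.add_re, Complex.add_re,
            Complex.re_ofReal_mul, Complex.re_ofReal_mul]
          have e4 : (-2 * conj c * inner ℂ u (opr g u)).re =
              -2 * (conj c * inner ℂ u (opr g u)).re := by
            have : -2 * conj c * inner ℂ u (opr g u) =
              ((-2 : ℝ) : ℂ) * (conj c * inner ℂ u (opr g u)) := by
              push_cast
              ring
            rw [this, Complex.re_ofReal_mul]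
          rw [e4]
          ring
        rw [e3]
        have h6 := Complex.re_le_norm (conj c * inner ℂ u (opr g u))
        linarith
      have h5 := (pos b).1 h3 k
      have e5 : (b k).re = (√θ * g₁ k) * s ^ 2 - 2 * ‖g k‖ * s + √θ * g₂ k := by
        have e6 : b k = (((√θ * g₁ k) * s ^ 2 + √θ * g₂ k : ℝ) : ℂ) +
            (-2 : ℂ) * (conj c * g k) := by
          rw [hb, ContinuousMap.add_apply, ContinuousMap.add_apply, ContinuousMap.smul_apply,
            ContinuousMap.smul_apply, ContinuousMap.smul_apply, cR_apply, cR_apply]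
          simp only [smul_eq_mul]
          push_cast
          ring
        rw [e6, p1]
        have e7 : (((√θ * g₁ k) * s ^ 2 + √θ * g₂ k : ℝ) : ℂ) + (-2 : ℂ) * ((s * ‖g k‖ : ℝ) : ℂ) =
            (((√θ * g₁ k) * s ^ 2 - 2 * ‖g k‖ * s + √θ * g₂ k : ℝ) : ℂ) := by
          push_cast
          ring
        rw [e7, Complex.ofReal_re]
      rw [← e5]
      exact h5
    have h6 := disc key
    calc ‖g k‖ ^ 2 ≤ √θ * g₁ k * (√θ * g₂ k) := h6
      _ = (√θ) ^ 2 * g₁ k * g₂ k := by ring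
      _ = θ * g₁ k * g₂ k := by rw [hs]
  · intro h u₁ u₂
    have hE1 := hE g₁ h₁ u₁
    have hE2 := hE g₂ h₂ u₂
    by_cases hI : inner ℂ u₁ (opr g u₂) = 0
    · rw [hI, norm_zero]
      have := mul_nonneg (mul_nonneg hθ hE1) hE2
      simpa using this
    have key : ∀ s : ℝ, 0 ≤ (√θ * (inner ℂ u₁ (opr (cR g₁) u₁)).re) * s ^ 2 -
        2 * ‖(inner ℂ u₁ (opr g u₂) : ℂ)‖ * s + √θ * (inner ℂ u₂ (opr (cR g₂) u₂)).re := by
      intro s
      obtain ⟨p1, p2⟩ := phase hI s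
      set c : ℂ := (s : ℂ) * (inner ℂ u₁ (opr g u₂) / ‖(inner ℂ u₁ (opr g u₂) : ℂ)‖) with hc
      obtain ⟨f₁, rfl⟩ := exists_RU u₁
      obtain ⟨f₂, rfl⟩ := exists_RU u₂
      obtain ⟨i1, r1⟩ := re_form (cR g₁) f₁
      obtain ⟨i2, r2⟩ := re_form (cR g₂) f₂
      obtain ⟨i3, r3⟩ := form g f₁ f₂
      have i4 : Integrable (fun t => (conj c * (conj (f₁ t) * g t * f₂ t)).re)
          (volume : Measure (UnitAddTorus (Fin d))) := (i3.const_mul (conj c)).re
      have r4 : s * ‖(inner ℂ (RU d f₁) (opr g (RU d f₂)) : ℂ)‖ =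
          ∫ t, (conj c * (conj (f₁ t) * g t * f₂ t)).re := by
        have e1 : (conj c * inner ℂ (RU d f₁) (opr g (RU d f₂))).re =
            s * ‖(inner ℂ (RU d f₁) (opr g (RU d f₂)) : ℂ)‖ := by
          rw [p1, Complex.ofReal_re]
        rw [← e1, r3, ← integral_const_mul]
        exact (integral_re (i3.const_mul (conj c))).symm
      have h5 : 2 * ∫ t, (conj c * (conj (f₁ t) * g t * f₂ t)).re ≤
          √θ * (s ^ 2 * ∫ t, (cR g₁ t).re * ‖f₁ t‖ ^ 2) + √θ * ∫ t, (cR g₂ t).re * ‖f₂ t‖ ^ 2 := by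
        rw [← integral_const_mul, ← integral_const_mul, ← integral_const_mul,
          ← integral_const_mul, ← integral_add ((i1.const_mul _).const_mul _) (i2.const_mul _)]
        refine integral_mono (i4.const_mul 2)
          (((i1.const_mul _).const_mul _).add (i2.const_mul _)) fun t => ?_
        have b1 : (conj c * (conj (f₁ t) * g t * f₂ t)).re ≤ ‖c‖ * (‖f₁ t‖ * ‖g t‖ * ‖f₂ t‖) := by
          refine (Complex.re_le_norm _).trans (le_of_eq ?_)
          rw [norm_mul, norm_mul, norm_mul, RCLike.norm_conj, RCLike.norm_conj]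
        have b2 := pw (N := ‖c‖ * (‖f₁ t‖ * ‖g t‖ * ‖f₂ t‖)) (A := s ^ 2 * (g₁ t * ‖f₁ t‖ ^ 2))
          (B := g₂ t * ‖f₂ t‖ ^ 2) hθ (mul_nonneg (sq_nonneg s) (mul_nonneg (h₁ t) (sq_nonneg _)))
          (mul_nonneg (h₂ t) (sq_nonneg _)) (by positivity) (by
            have b3 := h t
            have b4 : 0 ≤ s ^ 2 * ‖f₁ t‖ ^ 2 * ‖f₂ t‖ ^ 2 := by positivity
            calc (‖c‖ * (‖f₁ t‖ * ‖g t‖ * ‖f₂ t‖)) ^ 2
                = (‖c‖ ^ 2 * ‖f₁ t‖ ^ 2 * ‖f₂ t‖ ^ 2) * ‖g t‖ ^ 2 := by ring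
              _ = (s ^ 2 * ‖f₁ t‖ ^ 2 * ‖f₂ t‖ ^ 2) * ‖g t‖ ^ 2 := by rw [p2]
              _ ≤ (s ^ 2 * ‖f₁ t‖ ^ 2 * ‖f₂ t‖ ^ 2) * (θ * g₁ t * g₂ t) :=
                  mul_le_mul_of_nonneg_left b3 b4
              _ = θ * (s ^ 2 * (g₁ t * ‖f₁ t‖ ^ 2)) * (g₂ t * ‖f₂ t‖ ^ 2) := by ring)
        show 2 * (conj c * (conj (f₁ t) * g t * f₂ t)).re ≤
          √θ * (s ^ 2 * ((cR g₁ t).re * ‖f₁ t‖ ^ 2)) + √θ * ((cR g₂ t).re * ‖f₂ t‖ ^ 2)
        rw [cR_apply, cR_apply, Complex.ofReal_re, Complex.ofReal_re]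
        linarith
      rw [← r4, ← r1, ← r2] at h5
      linarith
    have h6 := disc key
    calc ‖(inner ℂ u₁ (opr g u₂) : ℂ)‖ ^ 2 ≤ √θ * (inner ℂ u₁ (opr (cR g₁) u₁)).re *
          (√θ * (inner ℂ u₂ (opr (cR g₂) u₂)).re) := h6
      _ = (√θ) ^ 2 * (inner ℂ u₁ (opr (cR g₁) u₁)).re * (inner ℂ u₂ (opr (cR g₂) u₂)).re := by
          ring
      _ = θ * (inner ℂ u₁ (opr (cR g₁) u₁)).re * (inner ℂ u₂ (opr (cR g₂) u₂)).re := by rw [hs]

/-- the kernel -/
theorem kern (a : C(UnitAddTorus (Fin d), ℂ)) (x y : Fin d → ℤ) :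
    opr a (dl y) x = UnitAddTorus.mFourierCoeff a (x - y) := by
  rw [((Pool.Agent.W918.LL.main d a a).1 (dl y) x).2, tsum_eq_single y]
  · unfold dl
    rw [lp.single_apply_self, mul_one]
  · intro z hz
    unfold dl
    rw [lp.single_apply_ne _ _ _ hz, mul_zero]

/-- SYMB -/
theorem main : Pool.Agent.W792.WA.S_SYMB := fun _ =>
  ⟨adj, nrm, pos, csl, kern⟩

end

end Pool.Agent.W683.WA
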